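import Mathlib

/-! Definitions for MP_008206_co: strongly forcing (0,1)-matrices. -/

namespace SIF

/-- the identity pattern `I_k` -/
def idMat (k : ℕ) : Fin k → Fin k → Bool := fun a b => decide (a = b)

/-- `A` is strongly `Q`-forcing: every one of `A` lies in a `k × k` submatrix (rows and columns
taken in increasing order) equal to `Q`, entry by entry -/
def StronglyForcing {k n : ℕ} (Q : Fin k → Fin k → Bool) (A : Fin n → Fin n → Bool) : Prop :=
  ∀ i j, A i j = true → ∃ r c : Fin k → Fin n, StrictMono r ∧ StrictMono c ∧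
    (∃ a, r a = i) ∧ (∃ b, c b = j) ∧ ∀ a b, A (r a) (c b) = Q a b

/-- number of ones of `A` -/
def ones {n : ℕ} (A : Fin n → Fin n → Bool) : ℕ :=
  (Finset.univ.filter (fun p : Fin n × Fin n => A p.1 p.2 = true)).card

/-- `M(n,Q)`: the largest number of ones of an `n × n` strongly `Q`-forcing matrix -/
noncomputable def maxOnes (n : ℕ) {k : ℕ} (Q : Fin k → Fin k → Bool) : ℕ :=
  sSup {m : ℕ | ∃ A : Fin n → Fin n → Bool, StronglyForcing Q A ∧ ones A = m}

end SIF
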