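import Pool.Agent.H26.SIF.Main
import Pool.Agent.H26.SIF.Defs

/-! Passage from the ordered definition, and the construction `I_{k-2} ⊕ (J - H)`. -/

namespace SIF
open Finset

variable {n k : ℕ} {A : Fin n → Fin n → Bool}

theorem ones_eq : (ones A : ℤ) = O A := by
  unfold ones O S aa
  rw [Finset.card_filter]
  push_cast
  rw [← Finset.univ_product_univ, Finset.sum_product]

theorem SF_of_strong (h : StronglyForcing (idMat k) A) : SF A k := by
  classical
  intro i j hij
  obtain ⟨r, c, hr, hc, ⟨a, ha⟩, ⟨b, hb⟩, hQ⟩ := h i j hij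
  refine ⟨univ.image r, univ.image c, ?_, ?_, ?_, ?_, ?_, ?_⟩
  · exact Finset.mem_image.2 ⟨a, Finset.mem_univ _, ha⟩
  · exact Finset.mem_image.2 ⟨b, Finset.mem_univ _, hb⟩
  · rw [Finset.card_image_of_injective _ hr.injective]; simp
  · rw [Finset.card_image_of_injective _ hc.injective]; simp
  · intro i' hi'
    obtain ⟨a', _, rfl⟩ := Finset.mem_image.1 hi'
    rw [Finset.sum_image (fun x _ y _ h => hc.injective h)]
    have : ∀ b' : Fin k, aa A (r a') (c b') = if a' = b' then 1 else 0 := by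
      intro b'
      unfold aa
      rw [hQ]
      simp [idMat]
    simp only [this]
    simp
  · intro j' hj'
    obtain ⟨b', _, rfl⟩ := Finset.mem_image.1 hj'
    rw [Finset.sum_image (fun x _ y _ h => hr.injective h)]
    have : ∀ a' : Fin k, aa A (r a') (c b') = if a' = b' then 1 else 0 := by
      intro a'
      unfold aa
      rw [hQ]
      simp [idMat]
    simp only [this]
    simp

/-- the matrix `I_{k-2} ⊕ (J - H)` -/
def Sm (n k : ℕ) (i j : Fin n) : Bool :=
  if (i : ℕ) < k - 2 then decide (i = j)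
  else decide (k - 2 ≤ (j : ℕ) ∧ (i : ℕ) + j ≠ n - 1 + (k - 2))

/-- `0, …, k-3, p, q` -/
def emb (hk : 2 ≤ k) (hkn : k ≤ n) (p q : Fin n) : Fin k → Fin n := fun a =>
  if (a : ℕ) < k - 2 then ⟨a, by omega⟩ else if (a : ℕ) = k - 2 then p else q

theorem emb_mono (hk : 2 ≤ k) (hkn : k ≤ n) {p q : Fin n} (hp : k - 2 ≤ (p : ℕ))
    (hpq : (p : ℕ) < q) : StrictMono (emb hk hkn p q) := by
  intro a b hab
  have ha := a.2
  have hb := b.2
  rw [Fin.lt_def] at hab ⊢
  unfold emb
  split_ifs <;> simp <;> omega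

theorem emb_entry (hk : 2 ≤ k) (hkn : k ≤ n) {p q p' q' : Fin n} (hp : k - 2 ≤ (p : ℕ))
    (hpq : (p : ℕ) < q) (h1 : (p : ℕ) + q' = n - 1 + (k - 2)) (h2 : (q : ℕ) + p' = n - 1 + (k - 2)) :
    ∀ a b, Sm n k (emb hk hkn p q a) (emb hk hkn p' q' b) = idMat k a b := by
  intro a b
  have ha := a.2
  have hb := b.2
  have hp2 := p.2
  have hq2 := q.2
  have hp'2 := p'.2
  have hq'2 := q'.2
  have hp' : k - 2 ≤ (p' : ℕ) := by omega
  have hpq' : (p' : ℕ) < q' := by omega
  unfold Sm idMat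
  rw [Bool.eq_iff_iff]
  rcases lt_or_ge (a : ℕ) (k - 2) with hA | hA
  · have e1 : emb hk hkn p q a = ⟨a, by omega⟩ := by unfold emb; rw [if_pos hA]
    rw [e1]
    simp only [hA, if_true, decide_eq_true_eq]
    rcases lt_or_ge (b : ℕ) (k - 2) with hB | hB
    · have e2 : emb hk hkn p' q' b = ⟨b, by omega⟩ := by unfold emb; rw [if_pos hB]
      rw [e2, Fin.ext_iff, Fin.ext_iff]
    · have e2 : k - 2 ≤ (emb hk hkn p' q' b : ℕ) := by
        unfold emb; rw [if_neg (by omega)]; split_ifs <;> omega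
      rw [Fin.ext_iff, Fin.ext_iff]
      simp only
      omega
  · have e1 : k - 2 ≤ (emb hk hkn p q a : ℕ) := by
      unfold emb; rw [if_neg (by omega)]; split_ifs <;> omega
    rw [if_neg (by omega)]
    simp only [decide_eq_true_eq]
    rcases lt_or_ge (b : ℕ) (k - 2) with hB | hB
    · have e2 : emb hk hkn p' q' b = ⟨b, by omega⟩ := by unfold emb; rw [if_pos hB]
      rw [e2, Fin.ext_iff]
      simp only
      omega
    · have e3 : emb hk hkn p q a = if (a : ℕ) = k - 2 then p else q := by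
        unfold emb; rw [if_neg (by omega)]
      have e4 : emb hk hkn p' q' b = if (b : ℕ) = k - 2 then p' else q' := by
        unfold emb; rw [if_neg (by omega)]
      rw [e3, e4, Fin.ext_iff]
      split_ifs <;> omega

theorem emb_small (hk : 2 ≤ k) (hkn : k ≤ n) (p q : Fin n) {i : Fin n} (hi : (i : ℕ) < k - 2) :
    emb hk hkn p q ⟨i, by omega⟩ = i := by
  unfold emb
  simp [hi]

theorem emb_p (hk : 2 ≤ k) (hkn : k ≤ n) (p q : Fin n) :
    emb hk hkn p q ⟨k - 2, by omega⟩ = p := by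
  unfold emb
  simp

theorem emb_q (hk : 2 ≤ k) (hkn : k ≤ n) (p q : Fin n) :
    emb hk hkn p q ⟨k - 1, by omega⟩ = q := by
  unfold emb
  simp only
  rw [if_neg (by omega), if_neg (by omega)]

theorem Sm_strong (hk : 2 ≤ k) (hkn : k ≤ n) : StronglyForcing (idMat k) (Sm n k) := by
  intro i j hij
  have hi2 := i.2
  have hj2 := j.2
  rcases lt_or_ge (i : ℕ) (k - 2) with hI | hI
  · have hij' : i = j := by
      unfold Sm at hij; rw [if_pos hI] at hij; simpa using hij
    subst hij'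
    refine ⟨emb hk hkn ⟨k - 2, by omega⟩ ⟨n - 1, by omega⟩,
      emb hk hkn ⟨k - 2, by omega⟩ ⟨n - 1, by omega⟩, ?_, ?_, ⟨⟨i, by omega⟩, ?_⟩,
      ⟨⟨i, by omega⟩, ?_⟩, ?_⟩
    · exact emb_mono hk hkn (by simp) (by simp; omega)
    · exact emb_mono hk hkn (by simp) (by simp; omega)
    · exact emb_small hk hkn _ _ hI
    · exact emb_small hk hkn _ _ hI
    · exact emb_entry hk hkn (by simp) (by simp; omega) (by simp; omega) (by simp)
  · have hij' : k - 2 ≤ (j : ℕ) ∧ (i : ℕ) + j ≠ n - 1 + (k - 2) := by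
      unfold Sm at hij; rw [if_neg (by omega)] at hij; simpa using hij
    obtain ⟨hj, hne⟩ := hij'
    rcases lt_or_gt_of_ne hne with hlt | hlt
    · -- `i` is the first row, `j` the first column
      refine ⟨emb hk hkn i ⟨n - 1 + (k - 2) - j, by omega⟩,
        emb hk hkn j ⟨n - 1 + (k - 2) - i, by omega⟩, ?_, ?_, ⟨⟨k - 2, by omega⟩, ?_⟩,
        ⟨⟨k - 2, by omega⟩, ?_⟩, ?_⟩
      · exact emb_mono hk hkn hI (by simp; omega)
      · exact emb_mono hk hkn hj (by simp; omega)
      · exact emb_p hk hkn _ _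
      · exact emb_p hk hkn _ _
      · exact emb_entry hk hkn hI (by simp; omega) (by simp; omega) (by simp; omega)
    · -- `i` is the second row, `j` the second column
      refine ⟨emb hk hkn ⟨n - 1 + (k - 2) - j, by omega⟩ i,
        emb hk hkn ⟨n - 1 + (k - 2) - i, by omega⟩ j, ?_, ?_, ⟨⟨k - 1, by omega⟩, ?_⟩,
        ⟨⟨k - 1, by omega⟩, ?_⟩, ?_⟩
      · exact emb_mono hk hkn (by simp; omega) (by simp; omega)
      · exact emb_mono hk hkn (by simp; omega) (by simp; omega)
      · exact emb_q hk hkn _ _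
      · exact emb_q hk hkn _ _
      · exact emb_entry hk hkn (by simp; omega) (by simp; omega) (by simp; omega) (by simp; omega)

theorem Sm_row_small {i : Fin n} (hi : (i : ℕ) < k - 2) :
    ∑ j, aa (Sm n k) i j = 1 := by
  have : ∀ j : Fin n, aa (Sm n k) i j = if i = j then 1 else 0 := by
    intro j; unfold aa Sm; rw [if_pos hi]; simp
  simp only [this]; simp

theorem Sm_row_big (hk : 2 ≤ k) (hkn : k ≤ n) {i : Fin n} (hi : k - 2 ≤ (i : ℕ)) :
    ∑ j, aa (Sm n k) i j = (n : ℤ) - k + 1 := by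
  have hi2 := i.2
  have h1 : ∑ j, aa (Sm n k) i j = ((univ.filter (fun j : Fin n => k - 2 ≤ (j : ℕ) ∧
      (i : ℕ) + j ≠ n - 1 + (k - 2))).card : ℤ) := by
    rw [Finset.card_filter]
    push_cast
    apply Finset.sum_congr rfl
    intro j _
    unfold aa Sm
    rw [if_neg (show ¬ (i : ℕ) < k - 2 by omega)]
    simp only [decide_eq_true_eq]
  rw [h1]
  have h2 : univ.filter (fun j : Fin n => k - 2 ≤ (j : ℕ) ∧ (i : ℕ) + j ≠ n - 1 + (k - 2)) =
      (Finset.Ici (⟨k - 2, by omega⟩ : Fin n)).erase ⟨n - 1 + (k - 2) - i, by omega⟩ := by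
    ext j
    simp only [Finset.mem_filter, Finset.mem_univ, true_and, Finset.mem_erase, Finset.mem_Ici,
      Fin.le_def, ne_eq, Fin.ext_iff]
    omega
  rw [h2, Finset.card_erase_of_mem, Fin.card_Ici]
  · simp only
    rw [Nat.cast_sub (by omega), Nat.cast_sub (by omega), Nat.cast_sub (by omega)]
    push_cast
    ring
  · simp only [Finset.mem_Ici, Fin.le_def]
    omega

theorem Sm_ones (hk : 2 ≤ k) (hkn : k ≤ n) : (ones (Sm n k) : ℤ) = conj n k := by
  rw [ones_eq]
  unfold O S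
  have h1 : ∀ i : Fin n, ∑ j, aa (Sm n k) i j =
      ((n : ℤ) - k + 1) - (if (i : ℕ) < k - 2 then ((n : ℤ) - k) else 0) := by
    intro i
    split_ifs with hi
    · rw [Sm_row_small hi]; ring
    · rw [Sm_row_big hk hkn (by omega)]; ring
  simp only [h1]
  rw [Finset.sum_sub_distrib, ← Finset.sum_filter, Finset.sum_const, Finset.sum_const]
  have h2 : (univ.filter (fun i : Fin n => (i : ℕ) < k - 2)).card = k - 2 := by
    have : univ.filter (fun i : Fin n => (i : ℕ) < k - 2) = Finset.Iio (⟨k - 2, by omega⟩ : Fin n) := by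
      ext i; simp [Fin.lt_def]
    rw [this, Fin.card_Iio]
  rw [h2]
  simp only [Finset.card_univ, Fintype.card_fin, nsmul_eq_mul]
  rw [Nat.cast_sub hk]
  unfold conj
  push_cast
  ring

/-- the maximum is attained and bounds every strongly forcing matrix -/
theorem maxOnes_spec {n k : ℕ} (Q : Fin k → Fin k → Bool) :
    (∃ A : Fin n → Fin n → Bool, StronglyForcing Q A ∧ ones A = maxOnes n Q) ∧
    ∀ A : Fin n → Fin n → Bool, StronglyForcing Q A → ones A ≤ maxOnes n Q := by
  have hbdd : BddAbove {m : ℕ | ∃ A : Fin n → Fin n → Bool, StronglyForcing Q A ∧ ones A = m} := by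
    refine ⟨Fintype.card (Fin n × Fin n), ?_⟩
    rintro m ⟨A, _, rfl⟩
    exact Finset.card_le_univ _
  have hne : {m : ℕ | ∃ A : Fin n → Fin n → Bool, StronglyForcing Q A ∧ ones A = m}.Nonempty :=
    ⟨_, fun _ _ => false, fun i j h => absurd h (by simp), rfl⟩
  refine ⟨Nat.sSup_mem hne hbdd, fun A hA => le_csSup hbdd ⟨A, hA, rfl⟩⟩

end SIF
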