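import Mathlib
import Pool.Agent.H26.SIF.Defs

/-! The algebraic bound `(n-k+p)(n-k+q)`, `p q ≥ k`. -/

namespace SIF
open Finset

/-- exponents: the first `k` elements of the `p × q` box -/
def ex {k p q : ℕ} (h : k ≤ p * q) (m : Fin k) : Fin p × Fin q :=
  finProdFinEquiv.symm (Fin.castLE h m)

theorem ex_inj {k p q : ℕ} (h : k ≤ p * q) : Function.Injective (ex h) := by
  intro a b hab
  unfold ex at hab
  have := finProdFinEquiv.symm.injective hab
  exact Fin.castLE_injective h this

/-- the generic matrix -/
noncomputable def gm {n k p q : ℕ} (h : k ≤ p * q) (r c : Fin k → Fin n) :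
    Matrix (Fin k) (Fin k) (MvPolynomial (Fin n ⊕ Fin n) ℚ) :=
  Matrix.of fun s m => MvPolynomial.X (Sum.inl (r s)) ^ ((ex h m).1 : ℕ) *
    MvPolynomial.X (Sum.inr (c s)) ^ ((ex h m).2 : ℕ)

/-- exponent vector of the term of `σ` -/
noncomputable def ev {n k p q : ℕ} (h : k ≤ p * q) (r c : Fin k → Fin n) (σ : Equiv.Perm (Fin k)) :
    (Fin n ⊕ Fin n) →₀ ℕ :=
  ∑ m, (Finsupp.single (Sum.inl (r (σ m))) ((ex h m).1 : ℕ) +
    Finsupp.single (Sum.inr (c (σ m))) ((ex h m).2 : ℕ))

theorem prod_term {n k p q : ℕ} (h : k ≤ p * q) (r c : Fin k → Fin n) (σ : Equiv.Perm (Fin k)) :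
    ∏ m, gm h r c (σ m) m = MvPolynomial.monomial (ev h r c σ) 1 := by
  unfold gm ev
  rw [MvPolynomial.monomial_sum_one]
  apply Finset.prod_congr rfl
  intro m _
  rw [Matrix.of_apply, MvPolynomial.X_pow_eq_monomial, MvPolynomial.X_pow_eq_monomial,
    MvPolynomial.monomial_mul, one_mul]

theorem ev_inl {n k p q : ℕ} (h : k ≤ p * q) {r c : Fin k → Fin n} (hr : Function.Injective r)
    (σ : Equiv.Perm (Fin k)) (m : Fin k) :
    ev h r c σ (Sum.inl (r (σ m))) = ((ex h m).1 : ℕ) := by
  unfold ev
  rw [Finsupp.finsetSum_apply]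
  rw [Finset.sum_eq_single m]
  · simp
  · intro b _ hb
    simp only [Finsupp.add_apply]
    have h1 : (Sum.inl (r (σ m)) : Fin n ⊕ Fin n) ≠ Sum.inl (r (σ b)) := by
      intro hc
      rw [Sum.inl.injEq] at hc
      exact hb (σ.injective (hr hc)).symm
    have h2 : (Sum.inl (r (σ m)) : Fin n ⊕ Fin n) ≠ Sum.inr (c (σ b)) := Sum.inl_ne_inr
    rw [Finsupp.single_eq_of_ne h1, Finsupp.single_eq_of_ne h2, add_zero]
  · intro hm; exact absurd (Finset.mem_univ m) hm

theorem ev_inr {n k p q : ℕ} (h : k ≤ p * q) {r c : Fin k → Fin n} (hc : Function.Injective c)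
    (σ : Equiv.Perm (Fin k)) (m : Fin k) :
    ev h r c σ (Sum.inr (c (σ m))) = ((ex h m).2 : ℕ) := by
  unfold ev
  rw [Finsupp.finsetSum_apply]
  rw [Finset.sum_eq_single m]
  · simp
  · intro b _ hb
    simp only [Finsupp.add_apply]
    have h1 : (Sum.inr (c (σ m)) : Fin n ⊕ Fin n) ≠ Sum.inr (c (σ b)) := by
      intro hc'
      rw [Sum.inr.injEq] at hc'
      exact hb (σ.injective (hc hc')).symm
    have h2 : (Sum.inr (c (σ m)) : Fin n ⊕ Fin n) ≠ Sum.inl (r (σ b)) := Sum.inr_ne_inl
    rw [Finsupp.single_eq_of_ne h1, Finsupp.single_eq_of_ne h2, add_zero]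
  · intro hm; exact absurd (Finset.mem_univ m) hm

theorem det_ne {n k p q : ℕ} (h : k ≤ p * q) {r c : Fin k → Fin n} (hr : Function.Injective r)
    (hc : Function.Injective c) : (gm h r c).det ≠ 0 := by
  classical
  intro h0
  have h1 := congrArg (MvPolynomial.coeff (ev h r c 1)) h0
  rw [Matrix.det_apply, MvPolynomial.coeff_sum, MvPolynomial.coeff_zero] at h1
  rw [Finset.sum_eq_single (1 : Equiv.Perm (Fin k))] at h1
  · rw [prod_term] at h1
    simp at h1
  · intro σ _ hσ
    rw [prod_term]
    have hne : ev h r c σ ≠ ev h r c 1 := by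
      intro heq
      apply hσ
      ext1 m
      obtain ⟨m', hm'⟩ : ∃ m', σ m = m' := ⟨_, rfl⟩
      have e1 := ev_inl h (c := c) hr σ m
      have e2 := ev_inl h (c := c) hr 1 m'
      have e3 := ev_inr h (r := r) hc σ m
      have e4 := ev_inr h (r := r) hc 1 m'
      rw [Equiv.Perm.one_apply] at e2 e4
      rw [hm', heq, e2] at e1
      rw [hm', heq, e4] at e3
      have : ex h m' = ex h m := by
        ext
        · exact e1
        · exact e3
      have := ex_inj h this
      rw [Equiv.Perm.one_apply, hm', this]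
    rcases Int.units_eq_one_or (Equiv.Perm.sign σ) with hs | hs
    · rw [hs, one_smul, MvPolynomial.coeff_monomial, if_neg hne]
    · rw [hs, Units.neg_smul, one_smul, MvPolynomial.coeff_neg, MvPolynomial.coeff_monomial,
        if_neg hne, neg_zero]
  · intro hm; exact absurd (Finset.mem_univ _) hm

/-- points in general position -/
theorem exists_points {k p q : ℕ} (n : ℕ) (h : k ≤ p * q) :
    ∃ a b : Fin n → ℚ, Function.Injective a ∧ Function.Injective b ∧
      ∀ r c : Fin k → Fin n, Function.Injective r → Function.Injective c →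
        (Matrix.of fun s m : Fin k => a (r s) ^ ((ex h m).1 : ℕ) * b (c s) ^ ((ex h m).2 : ℕ)).det
          ≠ 0 := by
  classical
  let P1 : MvPolynomial (Fin n ⊕ Fin n) ℚ :=
    ∏ rc ∈ (Finset.univ : Finset ((Fin k → Fin n) × (Fin k → Fin n))).filter
      (fun rc => Function.Injective rc.1 ∧ Function.Injective rc.2), (gm h rc.1 rc.2).det
  let P2 : MvPolynomial (Fin n ⊕ Fin n) ℚ :=
    ∏ ij ∈ (Finset.univ : Finset ((Fin n ⊕ Fin n) × (Fin n ⊕ Fin n))).filter
      (fun ij => ij.1 ≠ ij.2), (MvPolynomial.X ij.1 - MvPolynomial.X ij.2)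
  have hP1 : P1 ≠ 0 := by
    rw [Finset.prod_ne_zero_iff]
    intro rc hrc
    rw [Finset.mem_filter] at hrc
    exact det_ne h hrc.2.1 hrc.2.2
  have hP2 : P2 ≠ 0 := by
    rw [Finset.prod_ne_zero_iff]
    intro ij hij
    rw [Finset.mem_filter] at hij
    rw [sub_ne_zero]
    intro hX
    exact hij.2 (MvPolynomial.X_injective hX)
  have hP : P1 * P2 ≠ 0 := mul_ne_zero hP1 hP2
  obtain ⟨x, hx⟩ : ∃ x : Fin n ⊕ Fin n → ℚ, MvPolynomial.eval x (P1 * P2) ≠ 0 := by
    by_contra hcon
    push Not at hcon
    exact hP (MvPolynomial.funext (fun x => by rw [hcon x, map_zero]))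
  rw [map_mul] at hx
  have hx1 := left_ne_zero_of_mul hx
  have hx2 := right_ne_zero_of_mul hx
  rw [map_prod, Finset.prod_ne_zero_iff] at hx1 hx2
  refine ⟨fun i => x (Sum.inl i), fun j => x (Sum.inr j), ?_, ?_, ?_⟩
  · intro i i' hii
    by_contra hne
    have := hx2 (Sum.inl i, Sum.inl i') (by simp [hne])
    apply this
    simp only at hii
    simp [hii]
  · intro i i' hii
    by_contra hne
    have := hx2 (Sum.inr i, Sum.inr i') (by simp [hne])
    apply this
    simp only at hii
    simp [hii]
  · intro r c hr hc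
    have := hx1 (r, c) (by simp [hr, hc])
    rw [RingHom.map_det] at this
    convert this using 2
    ext s m
    simp [gm]

open Polynomial in
theorem eval_coeffs {N : ℕ} (P : ℚ[X]) (hP : P.natDegree < N) (x : ℚ) :
    ∑ u : Fin N, P.coeff u * x ^ (u : ℕ) = P.eval x := by
  rw [Polynomial.eval_eq_sum_range' hP]
  exact Fin.sum_univ_eq_sum_range (fun u => P.coeff u * x ^ u) N

open Polynomial in
/-- the algebraic bound -/
theorem alg_bound {n k p q : ℕ} (h : k ≤ p * q) {A : Fin n → Fin n → Bool}
    (hA : StronglyForcing (idMat k) A) : ones A ≤ (n - k + p) * (n - k + q) := by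
  classical
  obtain ⟨a, b, ha, hb, hdet⟩ := exists_points n h
  let E : Finset (Fin n × Fin n) := univ.filter (fun e : Fin n × Fin n => A e.1 e.2 = true)
  let Φ : (Fin (n - k + p) × Fin (n - k + q) → ℚ) →ₗ[ℚ] (E → ℚ) :=
    { toFun := fun c e => ∑ uw, c uw * (a e.1.1 ^ (uw.1 : ℕ) * b e.1.2 ^ (uw.2 : ℕ))
      map_add' := by
        intro c c'
        ext e
        simp only [Pi.add_apply, add_mul, Finset.sum_add_distrib]
      map_smul' := by
        intro t c
        ext e
        simp only [Pi.smul_apply, smul_eq_mul, RingHom.id_apply, Finset.mul_sum, mul_assoc] }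
  have hsurj : Function.Surjective Φ := by
    have hsingle : ∀ e : E, ∃ c, ∃ t : ℚ, t ≠ 0 ∧ Φ c = Pi.single e t := by
      rintro ⟨⟨i0, j0⟩, he⟩
      have hA0 : A i0 j0 = true := by simpa [E] using he
      obtain ⟨r, c, hr, hc, ⟨s0, hs0⟩, ⟨s1, hs1⟩, hQ⟩ := hA i0 j0 hA0
      have hs : s0 = s1 := by
        have := hQ s0 s1
        rw [hs0, hs1, hA0] at this
        simpa [idMat] using this.symm
      subst hs
      let M : Matrix (Fin k) (Fin k) ℚ :=
        Matrix.of fun s m : Fin k => a (r s) ^ ((ex h m).1 : ℕ) * b (c s) ^ ((ex h m).2 : ℕ)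
      have hM : IsUnit M.det := (hdet r c hr.injective hc.injective).isUnit
      let g : Fin k → ℚ := fun m => M⁻¹ m s0
      have hg : ∀ s, ∑ m, M s m * g m = if s = s0 then 1 else 0 := by
        intro s
        have := congrFun (congrFun (Matrix.mul_nonsing_inv M hM) s) s0
        rw [Matrix.mul_apply, Matrix.one_apply] at this
        exact this
      let P : ℚ[X] := ∏ i ∈ (univ.image r)ᶜ, (X - C (a i))
      let Q : ℚ[X] := ∏ j ∈ (univ.image c)ᶜ, (X - C (b j))
      have hcr : ((univ.image r)ᶜ : Finset (Fin n)).card = n - k := by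
        rw [Finset.card_compl, Finset.card_image_of_injective _ hr.injective]; simp
      have hcc : ((univ.image c)ᶜ : Finset (Fin n)).card = n - k := by
        rw [Finset.card_compl, Finset.card_image_of_injective _ hc.injective]; simp
      have hPd : P.natDegree ≤ n - k := by
        rw [← hcr]
        refine (Polynomial.natDegree_prod_le _ _).trans ?_
        refine (Finset.sum_le_card_nsmul _ _ 1 (fun i _ => ?_)).trans (by simp)
        exact (Polynomial.natDegree_X_sub_C (a i)).le
      have hQd : Q.natDegree ≤ n - k := by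
        rw [← hcc]
        refine (Polynomial.natDegree_prod_le _ _).trans ?_
        refine (Finset.sum_le_card_nsmul _ _ 1 (fun i _ => ?_)).trans (by simp)
        exact (Polynomial.natDegree_X_sub_C (b i)).le
      have hPm : ∀ m : Fin k, (P * X ^ ((ex h m).1 : ℕ)).natDegree < n - k + p := by
        intro m
        have h1 := Polynomial.natDegree_mul_le (p := P) (q := X ^ ((ex h m).1 : ℕ))
        rw [Polynomial.natDegree_X_pow] at h1
        have h2 := (ex h m).1.2
        omega
      have hQm : ∀ m : Fin k, (Q * X ^ ((ex h m).2 : ℕ)).natDegree < n - k + q := by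
        intro m
        have h1 := Polynomial.natDegree_mul_le (p := Q) (q := X ^ ((ex h m).2 : ℕ))
        rw [Polynomial.natDegree_X_pow] at h1
        have h2 := (ex h m).2.2
        omega
      have hval : ∀ e : E, Φ (fun uw => ∑ m, g m * ((P * X ^ ((ex h m).1 : ℕ)).coeff uw.1 *
          (Q * X ^ ((ex h m).2 : ℕ)).coeff uw.2)) e =
          P.eval (a e.1.1) * Q.eval (b e.1.2) *
            ∑ m, (a e.1.1 ^ ((ex h m).1 : ℕ) * b e.1.2 ^ ((ex h m).2 : ℕ)) * g m := by
        intro e
        change ∑ uw : Fin (n - k + p) × Fin (n - k + q), (∑ m, g m *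
          ((P * X ^ ((ex h m).1 : ℕ)).coeff uw.1 * (Q * X ^ ((ex h m).2 : ℕ)).coeff uw.2)) *
            (a e.1.1 ^ (uw.1 : ℕ) * b e.1.2 ^ (uw.2 : ℕ)) = _
        simp only [Finset.sum_mul]
        rw [Finset.sum_comm, Finset.mul_sum]
        apply Finset.sum_congr rfl
        intro m _
        have h1 := eval_coeffs _ (hPm m) (a e.1.1)
        have h2 := eval_coeffs _ (hQm m) (b e.1.2)
        rw [Polynomial.eval_mul, Polynomial.eval_pow, Polynomial.eval_X] at h1 h2
        have h3 : ∑ uw : Fin (n - k + p) × Fin (n - k + q), g m *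
            ((P * X ^ ((ex h m).1 : ℕ)).coeff uw.1 * (Q * X ^ ((ex h m).2 : ℕ)).coeff uw.2) *
            (a e.1.1 ^ (uw.1 : ℕ) * b e.1.2 ^ (uw.2 : ℕ)) =
            g m * ((∑ u : Fin (n - k + p), (P * X ^ ((ex h m).1 : ℕ)).coeff u * a e.1.1 ^ (u : ℕ)) *
              (∑ w : Fin (n - k + q), (Q * X ^ ((ex h m).2 : ℕ)).coeff w * b e.1.2 ^ (w : ℕ))) := by
          rw [Fintype.sum_prod_type, Finset.sum_mul_sum, Finset.mul_sum]
          apply Finset.sum_congr rfl
          intro u _
          rw [Finset.mul_sum]
          apply Finset.sum_congr rfl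
          intro w _
          ring
        rw [h3, h1, h2]
        ring
      refine ⟨fun uw => ∑ m, g m * ((P * X ^ ((ex h m).1 : ℕ)).coeff uw.1 *
          (Q * X ^ ((ex h m).2 : ℕ)).coeff uw.2), P.eval (a i0) * Q.eval (b j0), ?_, ?_⟩
      rotate_left
      · ext e
        rw [hval e]
        by_cases heq : e = ⟨(i0, j0), he⟩
        · rw [heq, Pi.single_eq_same]
          simp only
          have := hg s0
          simp only [M, Matrix.of_apply, hs0, hs1, if_true] at this
          rw [this, mul_one]
        · rw [Pi.single_eq_of_ne heq]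
          obtain ⟨⟨i, j⟩, hij⟩ := e
          have hAij : A i j = true := by simpa [E] using hij
          by_cases hi : i ∈ univ.image r
          · by_cases hj : j ∈ univ.image c
            · obtain ⟨s, _, rfl⟩ := Finset.mem_image.1 hi
              obtain ⟨s', _, rfl⟩ := Finset.mem_image.1 hj
              have hss : s = s' := by
                have := hQ s s'
                rw [hAij] at this
                simpa [idMat] using this.symm
              subst hss
              have hne : s ≠ s0 := by
                rintro rfl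
                apply heq
                apply Subtype.ext
                simp only [hs0, hs1]
              have := hg s
              simp only [M, Matrix.of_apply, hne, if_false] at this
              simp only
              rw [this, mul_zero]
            · have : Q.eval (b j) = 0 := by
                simp only [Q]
                rw [Polynomial.eval_prod]
                apply Finset.prod_eq_zero (Finset.mem_compl.2 hj)
                simp
              simp only
              rw [this]; ring
          · have : P.eval (a i) = 0 := by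
              simp only [P]
              rw [Polynomial.eval_prod]
              apply Finset.prod_eq_zero (Finset.mem_compl.2 hi)
              simp
            simp only
            rw [this]; ring
      · apply mul_ne_zero
        · simp only [P]
          rw [Polynomial.eval_prod, Finset.prod_ne_zero_iff]
          intro i hi
          rw [Finset.mem_compl] at hi
          simp only [Polynomial.eval_sub, Polynomial.eval_X, Polynomial.eval_C]
          rw [sub_ne_zero]
          intro hai
          have := ha hai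
          subst this
          exact hi (Finset.mem_image.2 ⟨s0, Finset.mem_univ _, hs0⟩)
        · simp only [Q]
          rw [Polynomial.eval_prod, Finset.prod_ne_zero_iff]
          intro i hi
          rw [Finset.mem_compl] at hi
          simp only [Polynomial.eval_sub, Polynomial.eval_X, Polynomial.eval_C]
          rw [sub_ne_zero]
          intro hai
          have := hb hai
          subst this
          exact hi (Finset.mem_image.2 ⟨s0, Finset.mem_univ _, hs1⟩)
    rw [← LinearMap.range_eq_top, eq_top_iff, ← (Pi.basisFun ℚ E).span_eq, Submodule.span_le]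
    rintro _ ⟨e, rfl⟩
    obtain ⟨c, t, ht, hct⟩ := hsingle e
    refine ⟨t⁻¹ • c, ?_⟩
    rw [map_smul, hct, Pi.basisFun_apply]
    ext e'
    rw [Pi.smul_apply, smul_eq_mul]
    by_cases hee : e' = e
    · rw [hee, Pi.single_eq_same, Pi.single_eq_same, inv_mul_cancel₀ ht]
    · rw [Pi.single_eq_of_ne hee, Pi.single_eq_of_ne hee, mul_zero]
  have hfin := LinearMap.finrank_le_finrank_of_surjective hsurj
  rw [Module.finrank_fintype_fun_eq_card, Module.finrank_fintype_fun_eq_card] at hfin
  rw [Fintype.card_coe, Fintype.card_prod, Fintype.card_fin, Fintype.card_fin] at hfin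
  exact hfin

end SIF
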