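import Mathlib

/-! Strongly identity-forcing matrices: counting lemmas (unordered version). -/

namespace SIF
open Finset

variable {n k : ℕ} {A : Fin n → Fin n → Bool}

/-- the entry as an integer -/
def aa (A : Fin n → Fin n → Bool) (i j : Fin n) : ℤ := if A i j = true then 1 else 0

/-- number of ones in the block `X × Y` -/
def S (A : Fin n → Fin n → Bool) (X Y : Finset (Fin n)) : ℤ := ∑ i ∈ X, ∑ j ∈ Y, aa A i j

theorem aa_nonneg (i j : Fin n) : 0 ≤ aa A i j := by unfold aa; split_ifs <;> norm_num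
theorem aa_le_one (i j : Fin n) : aa A i j ≤ 1 := by unfold aa; split_ifs <;> norm_num
theorem aa_eq_one {i j : Fin n} (h : A i j = true) : aa A i j = 1 := by simp [aa, h]
theorem aa_eq_zero {i j : Fin n} (h : A i j = false) : aa A i j = 0 := by simp [aa, h]

theorem rowsum_le_card (i : Fin n) (Y : Finset (Fin n)) : ∑ j ∈ Y, aa A i j ≤ Y.card := by
  have := Finset.sum_le_card_nsmul Y (fun j => aa A i j) 1 (fun j _ => aa_le_one i j)
  simpa using this

theorem rowsum_nonneg (i : Fin n) (Y : Finset (Fin n)) : 0 ≤ ∑ j ∈ Y, aa A i j :=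
  Finset.sum_nonneg (fun j _ => aa_nonneg i j)

theorem rowsum_mono (i : Fin n) {Y Y' : Finset (Fin n)} (h : Y ⊆ Y') :
    ∑ j ∈ Y, aa A i j ≤ ∑ j ∈ Y', aa A i j :=
  Finset.sum_le_sum_of_subset_of_nonneg h (fun j _ _ => aa_nonneg i j)

theorem S_tr (X Y : Finset (Fin n)) : S (fun i j => A j i) X Y = S A Y X := by
  unfold S aa
  rw [Finset.sum_comm]

theorem S_cols (X Y : Finset (Fin n)) : S A X Y = ∑ j ∈ Y, ∑ i ∈ X, aa A i j := by
  unfold S
  rw [Finset.sum_comm]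

theorem S_nonneg (X Y : Finset (Fin n)) : 0 ≤ S A X Y :=
  Finset.sum_nonneg (fun i _ => rowsum_nonneg i Y)

theorem S_union_left {X X' : Finset (Fin n)} (h : Disjoint X X') (Y : Finset (Fin n)) :
    S A (X ∪ X') Y = S A X Y + S A X' Y := by
  unfold S; rw [Finset.sum_union h]

theorem S_union_right {Y Y' : Finset (Fin n)} (h : Disjoint Y Y') (X : Finset (Fin n)) :
    S A X (Y ∪ Y') = S A X Y + S A X Y' := by
  rw [S_cols, S_cols, S_cols, Finset.sum_union h]

theorem S_mono {X X' Y Y' : Finset (Fin n)} (hX : X ⊆ X') (hY : Y ⊆ Y') : S A X Y ≤ S A X' Y' := by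
  unfold S
  calc ∑ i ∈ X, ∑ j ∈ Y, aa A i j ≤ ∑ i ∈ X, ∑ j ∈ Y', aa A i j :=
        Finset.sum_le_sum (fun i _ => rowsum_mono i hY)
    _ ≤ _ := Finset.sum_le_sum_of_subset_of_nonneg hX (fun i _ _ => rowsum_nonneg i Y')

theorem S_le_rows {X Y : Finset (Fin n)} {b : ℤ} (h : ∀ i ∈ X, ∑ j ∈ Y, aa A i j ≤ b) :
    S A X Y ≤ X.card * b := by
  unfold S
  have := Finset.sum_le_card_nsmul X (fun i => ∑ j ∈ Y, aa A i j) b h
  simpa using this

theorem S_le_cols {X Y : Finset (Fin n)} {b : ℤ} (h : ∀ j ∈ Y, ∑ i ∈ X, aa A i j ≤ b) :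
    S A X Y ≤ Y.card * b := by
  rw [S_cols]
  have := Finset.sum_le_card_nsmul Y (fun j => ∑ i ∈ X, aa A i j) b h
  simpa using this

theorem S_eq_rows {X Y : Finset (Fin n)} {b : ℤ} (h : ∀ i ∈ X, ∑ j ∈ Y, aa A i j = b) :
    S A X Y = X.card * b := by
  unfold S
  rw [Finset.sum_congr rfl h]; simp

/-- tightness by rows -/
theorem S_tight_rows {X Y : Finset (Fin n)} {b : ℤ} (h : ∀ i ∈ X, ∑ j ∈ Y, aa A i j ≤ b)
    (heq : X.card * b ≤ S A X Y) : ∀ i ∈ X, ∑ j ∈ Y, aa A i j = b := by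
  intro i hi
  by_contra hne
  have hlt : ∑ j ∈ Y, aa A i j < b := lt_of_le_of_ne (h i hi) hne
  have : S A X Y < ∑ _i ∈ X, b := by
    unfold S
    exact Finset.sum_lt_sum h ⟨i, hi, hlt⟩
  simp at this
  omega

/-- tightness by columns -/
theorem S_tight_cols {X Y : Finset (Fin n)} {b : ℤ} (h : ∀ j ∈ Y, ∑ i ∈ X, aa A i j ≤ b)
    (heq : Y.card * b ≤ S A X Y) : ∀ j ∈ Y, ∑ i ∈ X, aa A i j = b := by
  have h1 := S_tight_rows (A := fun i j => A j i) (X := Y) (Y := X) (b := b) h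
    (by rw [S_tr]; exact heq)
  exact h1

/-- a `k × k` permutation submatrix -/
structure IK (A : Fin n → Fin n → Bool) (k : ℕ) (R C : Finset (Fin n)) : Prop where
  cR : (R.card : ℤ) = k
  cC : (C.card : ℤ) = k
  row : ∀ i ∈ R, ∑ j ∈ C, aa A i j = 1
  col : ∀ j ∈ C, ∑ i ∈ R, aa A i j = 1

/-- every one lies in a `k × k` permutation submatrix -/
def SF (A : Fin n → Fin n → Bool) (k : ℕ) : Prop :=
  ∀ i j, A i j = true → ∃ R C : Finset (Fin n), i ∈ R ∧ j ∈ C ∧ IK A k R C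

theorem IK.tr {R C : Finset (Fin n)} (h : IK A k R C) : IK (fun i j => A j i) k C R :=
  ⟨h.cC, h.cR, h.col, h.row⟩

theorem SF.tr (h : SF A k) : SF (fun i j => A j i) k := by
  intro i j hij
  obtain ⟨R, C, hR, hC, hI⟩ := h j i hij
  exact ⟨C, R, hC, hR, hI.tr⟩

theorem IK.row_zero {R C : Finset (Fin n)} (h : IK A k R C) {i j j' : Fin n} (hi : i ∈ R)
    (hj : j ∈ C) (hA : A i j = true) (hj' : j' ∈ C) (hne : j' ≠ j) : A i j' = false := by
  by_contra hc
  have hc' : A i j' = true := by simpa using hc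
  have h1 := h.row i hi
  have h2 : ∑ l ∈ ({j, j'} : Finset (Fin n)), aa A i l ≤ ∑ l ∈ C, aa A i l := by
    apply rowsum_mono
    intro l hl
    simp only [Finset.mem_insert, Finset.mem_singleton] at hl
    rcases hl with rfl | rfl <;> assumption
  rw [Finset.sum_pair (Ne.symm hne), aa_eq_one hA, aa_eq_one hc'] at h2
  omega

theorem IK.col_zero {R C : Finset (Fin n)} (h : IK A k R C) {i i' j : Fin n} (hi : i ∈ R)
    (hj : j ∈ C) (hA : A i j = true) (hi' : i' ∈ R) (hne : i' ≠ i) : A i' j = false :=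
  IK.row_zero h.tr hj hi hA hi' hne

end SIF
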