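import Pool.Agent.H26.SIF.Basic

/-! Counting bounds around a row with the largest number of ones. -/

namespace SIF
open Finset

variable {n k : ℕ} {A : Fin n → Fin n → Bool}

/-- all lines have at most `d` ones and row `r` has exactly `d` -/
structure Ctx (A : Fin n → Fin n → Bool) (k : ℕ) (d : ℤ) (r : Fin n) : Prop where
  sf : SF A k
  rowle : ∀ i, ∑ j, aa A i j ≤ d
  colle : ∀ j, ∑ i, aa A i j ≤ d
  rr : ∑ j, aa A r j = d

/-- columns with a one in row `r` -/
def W (A : Fin n → Fin n → Bool) (r : Fin n) : Finset (Fin n) := univ.filter (fun j => A r j = true)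

/-- columns with a zero in row `r` -/
def Z (A : Fin n → Fin n → Bool) (r : Fin n) : Finset (Fin n) := univ.filter (fun j => ¬ A r j = true)

/-- two rows occur together in a permutation submatrix -/
def Rl (A : Fin n → Fin n → Bool) (k : ℕ) (r e : Fin n) : Prop :=
  ∃ R C : Finset (Fin n), IK A k R C ∧ r ∈ R ∧ e ∈ R

open Classical in
/-- related rows -/
noncomputable def Re (A : Fin n → Fin n → Bool) (k : ℕ) (r : Fin n) : Finset (Fin n) :=
  univ.filter (fun e => e ≠ r ∧ Rl A k r e)

open Classical in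
/-- unrelated rows -/
noncomputable def Un (A : Fin n → Fin n → Bool) (k : ℕ) (r : Fin n) : Finset (Fin n) :=
  univ.filter (fun e => e ≠ r ∧ ¬ Rl A k r e)

theorem mem_W {r j : Fin n} : j ∈ W A r ↔ A r j = true := by simp [W]
theorem mem_Z {r j : Fin n} : j ∈ Z A r ↔ A r j = false := by simp [Z]

theorem WZ_disj (r : Fin n) : Disjoint (W A r) (Z A r) := by
  unfold W Z; exact Finset.disjoint_filter_filter_not _ _ _

theorem WZ_union (r : Fin n) : W A r ∪ Z A r = univ := by
  unfold W Z; exact Finset.filter_union_filter_not_eq _ _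

theorem card_W_aux (r : Fin n) : ((W A r).card : ℤ) = ∑ j, aa A r j := by
  unfold W aa
  rw [Finset.card_filter]
  push_cast
  rfl

theorem Ctx.card_W {d : ℤ} {r : Fin n} (h : Ctx A k d r) : ((W A r).card : ℤ) = d := by
  rw [card_W_aux, h.rr]

theorem Ctx.card_Z {d : ℤ} {r : Fin n} (h : Ctx A k d r) : ((Z A r).card : ℤ) = n - d := by
  have h1 := Finset.card_union_of_disjoint (WZ_disj (A := A) r)
  rw [WZ_union, Finset.card_univ, Fintype.card_fin] at h1
  have h2 := h.card_W
  omega

theorem decomp (r : Fin n) :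
    (univ : Finset (Fin n)) = {r} ∪ (Re A k r ∪ Un A k r) := by
  classical
  ext e
  simp only [Finset.mem_univ, Re, Un, Finset.mem_union, Finset.mem_singleton, Finset.mem_filter,
    true_and, true_iff]
  by_cases he : e = r
  · exact Or.inl he
  · by_cases hr : Rl A k r e
    · exact Or.inr (Or.inl ⟨he, hr⟩)
    · exact Or.inr (Or.inr ⟨he, hr⟩)

theorem disj_RU (r : Fin n) : Disjoint (Re A k r) (Un A k r) := by
  classical
  rw [Finset.disjoint_left]
  intro e h1 h2
  simp only [Re, Un, Finset.mem_filter, Finset.mem_univ, true_and] at h1 h2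
  exact h2.2 h1.2

theorem disj_r (r : Fin n) : Disjoint {r} (Re A k r ∪ Un A k r) := by
  classical
  rw [Finset.disjoint_left]
  intro e h1 h2
  simp only [Re, Un, Finset.mem_filter, Finset.mem_univ, true_and, Finset.mem_union,
    Finset.mem_singleton] at h1 h2
  subst h1
  rcases h2 with h2 | h2 <;> exact h2.1 rfl

theorem card_RU (r : Fin n) : ((Re A k r).card : ℤ) + (Un A k r).card = n - 1 := by
  classical
  have h1 := congrArg Finset.card (decomp (A := A) (k := k) r)
  rw [Finset.card_union_of_disjoint (disj_r r), Finset.card_union_of_disjoint (disj_RU r)] at h1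
  simp only [Finset.card_univ, Fintype.card_fin, Finset.card_singleton] at h1
  omega

/-- the intersection of an `I_k` through `r` with `Z` has `k-1` columns -/
theorem IK.card_CZ {R C : Finset (Fin n)} (h : IK A k R C) {r : Fin n} (hr : r ∈ R) :
    ((C ∩ Z A r).card : ℤ) = k - 1 := by
  have h1 : ∑ j ∈ C, aa A r j = 1 := h.row r hr
  have h2 : ((C.filter (fun j => A r j = true)).card : ℤ) = ∑ j ∈ C, aa A r j := by
    unfold aa
    rw [Finset.card_filter]
    push_cast
    rfl
  have h3 := Finset.card_filter_add_card_filter_not (s := C) (fun j => A r j = true)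
  have h4 : C ∩ Z A r = C.filter (fun j => ¬ A r j = true) := by
    ext j; simp [Z]
  have h5 := h.cC
  rw [h4]
  omega

/-- a related row has few ones on `Z` -/
theorem related_le {d : ℤ} {r : Fin n} (h : Ctx A k d r) {e : Fin n} (he : Rl A k r e) :
    ∑ j ∈ Z A r, aa A e j ≤ n - d - k + 2 := by
  classical
  obtain ⟨R, C, hI, hr, heR⟩ := he
  have h1 : Z A r = (C ∩ Z A r) ∪ (Z A r \ C) := by
    ext j; simp only [Finset.mem_union, Finset.mem_inter, Finset.mem_sdiff]; tauto
  have hd : Disjoint (C ∩ Z A r) (Z A r \ C) := by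
    rw [Finset.disjoint_left]; intro j; simp only [Finset.mem_inter, Finset.mem_sdiff]; tauto
  have h2 := hI.card_CZ hr
  have h3 : ((Z A r).card : ℤ) = (C ∩ Z A r).card + (Z A r \ C).card := by
    conv_lhs => rw [h1]
    rw [Finset.card_union_of_disjoint hd]; push_cast; rfl
  have h4 := h.card_Z
  have h5 : ∑ j ∈ Z A r, aa A e j = ∑ j ∈ C ∩ Z A r, aa A e j + ∑ j ∈ Z A r \ C, aa A e j := by
    conv_lhs => rw [h1]
    rw [Finset.sum_union hd]
  have h6 : ∑ j ∈ C ∩ Z A r, aa A e j ≤ 1 := by
    rw [← hI.row e heR]; exact rowsum_mono e Finset.inter_subset_left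
  have h7 := rowsum_le_card (A := A) e (Z A r \ C)
  rw [h5]
  linarith

theorem S_ReZ {d : ℤ} {r : Fin n} (h : Ctx A k d r) {X : Finset (Fin n)} (hX : X ⊆ Re A k r) :
    S A X (Z A r) ≤ X.card * (n - d - k + 2) := by
  apply S_le_rows
  intro e he
  have := hX he
  simp only [Re, Finset.mem_filter, Finset.mem_univ, true_and] at this
  exact related_le h this.2

/-- total -/
def O (A : Fin n → Fin n → Bool) : ℤ := S A univ univ

theorem O_split (r : Fin n) (Y : Finset (Fin n)) :
    S A univ Y = S A {r} Y + S A (Re A k r) Y + S A (Un A k r) Y := by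
  conv_lhs => rw [decomp (A := A) (k := k) r]
  rw [S_union_left (disj_r r), S_union_left (disj_RU r)]
  ring

theorem S_r_univ {d : ℤ} {r : Fin n} (h : Ctx A k d r) : S A {r} univ = d := by
  unfold S; simp [h.rr]

theorem S_r_Z {r : Fin n} {Y : Finset (Fin n)} (hY : Y ⊆ Z A r) : S A {r} Y = 0 := by
  unfold S
  rw [Finset.sum_singleton]
  apply Finset.sum_eq_zero
  intro j hj
  exact aa_eq_zero (mem_Z.1 (hY hj))

theorem S_WZ (r : Fin n) (X : Finset (Fin n)) :
    S A X univ = S A X (W A r) + S A X (Z A r) := by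
  rw [← S_union_right (WZ_disj r), WZ_union]

/-- a column of `W` has at least `k-1` zeros among the related rows -/
theorem W_col {d : ℤ} {r : Fin n} (h : Ctx A k d r) {c : Fin n} (hc : c ∈ W A r) :
    ∑ i ∈ Re A k r, aa A i c ≤ (Re A k r).card - (k - 1) := by
  classical
  obtain ⟨R, C, hr, hcC, hI⟩ := h.sf r c (mem_W.1 hc)
  have hsub : R.erase r ⊆ Re A k r := by
    intro e he
    rw [Finset.mem_erase] at he
    simp only [Re, Finset.mem_filter, Finset.mem_univ, true_and]
    exact ⟨he.1, R, C, hI, hr, he.2⟩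
  have hcard : ((R.erase r).card : ℤ) = k - 1 := by
    have h1 := Finset.card_erase_add_one hr
    have h2 := hI.cR
    omega
  have h0 : ∑ i ∈ R.erase r, aa A i c = 0 := by
    apply Finset.sum_eq_zero
    intro i hi
    rw [Finset.mem_erase] at hi
    exact aa_eq_zero (hI.col_zero hr hcC (mem_W.1 hc) hi.2 hi.1)
  have h1 : ∑ i ∈ Re A k r, aa A i c = ∑ i ∈ Re A k r \ R.erase r, aa A i c := by
    have := Finset.sum_sdiff (f := fun i => aa A i c) hsub
    linarith
  have h2 := rowsum_le_card (A := fun i j => A j i) c (Re A k r \ R.erase r)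
  have h3 : ((Re A k r \ R.erase r).card : ℤ) = (Re A k r).card - (R.erase r).card := by
    rw [Finset.card_sdiff_of_subset hsub, Nat.cast_sub (Finset.card_le_card hsub)]
  rw [h1, ← hcard, ← h3]
  exact h2

theorem S_Re_W {d : ℤ} {r : Fin n} (h : Ctx A k d r) :
    S A (Re A k r) (W A r) ≤ d * ((Re A k r).card - (k - 1)) := by
  have := S_le_cols (A := A) (X := Re A k r) (Y := W A r) (fun c hc => W_col h hc)
  rw [h.card_W] at this
  exact this

theorem S_le_all {d : ℤ} {r : Fin n} (h : Ctx A k d r) (X Y : Finset (Fin n)) :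
    S A X Y ≤ X.card * d := by
  apply S_le_rows
  intro i _
  exact (rowsum_mono i (Finset.subset_univ Y)).trans (h.rowle i)

theorem S_le_all' {d : ℤ} {r : Fin n} (h : Ctx A k d r) (X Y : Finset (Fin n)) :
    S A X Y ≤ Y.card * d := by
  apply S_le_cols
  intro j _
  exact (rowsum_mono (A := fun i j => A j i) j (Finset.subset_univ X)).trans (h.colle j)

theorem trivial_bound {d : ℤ} {r : Fin n} (h : Ctx A k d r) : O A ≤ n * d := by
  have := S_le_all h univ univ
  simpa [O] using this

theorem B2 {d : ℤ} {r : Fin n} (h : Ctx A k d r) :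
    O A ≤ d * (n - k + 1) + (n - 1 - (Un A k r).card) * (n - d - k + 2) := by
  have e1 : O A = S A {r} univ + S A (Re A k r) univ + S A (Un A k r) univ := O_split r univ
  have e2 := S_WZ (A := A) r (Re A k r)
  have e3 := S_r_univ h
  have e4 := S_Re_W h
  have e5 := S_ReZ h (Finset.Subset.refl (Re A k r))
  have e6 := S_le_all h (Un A k r) univ
  have e7 := card_RU (A := A) (k := k) r
  have e8 : ((Re A k r).card : ℤ) = n - 1 - (Un A k r).card := by linarith
  rw [e8] at e4 e5
  have : O A ≤ d + (d * (n - 1 - (Un A k r).card - (k - 1)) +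
      (n - 1 - (Un A k r).card) * (n - d - k + 2)) + (Un A k r).card * d := by linarith
  linarith

theorem B1 {d : ℤ} {r : Fin n} (h : Ctx A k d r) {g : ℤ}
    (hg : ∀ e ∈ Un A k r, ∑ j ∈ Z A r, aa A e j ≤ g) :
    O A ≤ d * d + (n - 1 - (Un A k r).card) * (n - d - k + 2) + (Un A k r).card * g := by
  have e1 : O A = S A univ (W A r) + S A univ (Z A r) := S_WZ r univ
  have e2 := O_split (A := A) (k := k) r (Z A r)
  have e3 := S_r_Z (A := A) (r := r) (Finset.Subset.refl (Z A r))
  have e4 := S_le_all' h univ (W A r)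
  rw [h.card_W] at e4
  have e5 := S_ReZ h (Finset.Subset.refl (Re A k r))
  have e6 := S_le_rows hg
  have e7 := card_RU (A := A) (k := k) r
  have e8 : ((Re A k r).card : ℤ) = n - 1 - (Un A k r).card := by linarith
  rw [e8] at e5
  linarith

theorem B1z {d : ℤ} {r : Fin n} (h : Ctx A k d r) :
    O A ≤ d * d + (n - 1 - (Un A k r).card) * (n - d - k + 2) + (Un A k r).card * (n - d) := by
  apply B1 h
  intro e _
  have := rowsum_le_card (A := A) e (Z A r)
  rw [h.card_Z] at this
  exact this

theorem B1d {d : ℤ} {r : Fin n} (h : Ctx A k d r) :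
    O A ≤ d * d + (n - 1 - (Un A k r).card) * (n - d - k + 2) + (Un A k r).card * d := by
  apply B1 h
  intro e _
  exact (rowsum_mono e (Finset.subset_univ _)).trans (h.rowle e)

/-- one `I_k` -/
theorem B3 {d : ℤ} {r : Fin n} (h : Ctx A k d r) {R C : Finset (Fin n)} (hI : IK A k R C) :
    O A ≤ k + 2 * (n - k) * d := by
  classical
  have e1 : O A = S A (R ∪ Rᶜ) univ := by rw [Finset.union_compl]; rfl
  rw [S_union_left disjoint_compl_right] at e1
  have e2 : S A R univ = S A R (C ∪ Cᶜ) := by rw [Finset.union_compl]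
  rw [S_union_right disjoint_compl_right] at e2
  have e3 := S_eq_rows hI.row
  have e4 := S_le_all h Rᶜ univ
  have e5 := S_le_all' h R Cᶜ
  have e6 : ((Rᶜ).card : ℤ) = n - k := by
    have h1 := Finset.card_add_card_compl R
    rw [Fintype.card_fin] at h1
    have h2 := hI.cR
    omega
  have e7 : ((Cᶜ).card : ℤ) = n - k := by
    have h1 := Finset.card_add_card_compl C
    rw [Fintype.card_fin] at h1
    have h2 := hI.cC
    omega
  rw [e6] at e4
  rw [e7] at e5
  rw [hI.cR] at e3
  linarith

end SIF
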