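import Pool.Agent.H26.SIF.NB

/-! Upper bounds for the number of ones. -/

namespace SIF
open Finset

variable {n k : ℕ} {A : Fin n → Fin n → Bool}

theorem B1S {d : ℤ} {r : Fin n} (h : Ctx A k d r) :
    O A ≤ d * d + (n - 1 - (Un A k r).card) * (n - d - k + 2) + S A (Un A k r) (Z A r) := by
  have e1 : O A = S A univ (W A r) + S A univ (Z A r) := S_WZ r univ
  have e2 := O_split (A := A) (k := k) r (Z A r)
  have e3 := S_r_Z (A := A) (r := r) (Finset.Subset.refl (Z A r))
  have e4 := S_le_all' h univ (W A r)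
  rw [h.card_W] at e4
  have e5 := S_ReZ h (Finset.Subset.refl (Re A k r))
  have e7 := card_RU (A := A) (k := k) r
  have e8 : ((Re A k r).card : ℤ) = n - 1 - (Un A k r).card := by linarith
  rw [e8] at e5
  linarith

theorem exists_one' {r : Fin n} (h : 1 ≤ ∑ j, aa A r j) : ∃ c, A r c = true := by
  by_contra hc
  push Not at hc
  have : ∑ j, aa A r j = 0 := by
    apply Finset.sum_eq_zero
    intro j _
    exact aa_eq_zero (by simpa using hc j)
  omega

theorem Rl_symm {r e : Fin n} (h : Rl A k r e) : Rl A k e r := by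
  obtain ⟨R, C, h1, h2, h3⟩ := h
  exact ⟨R, C, h1, h3, h2⟩

/-- one full row in the special case `k = 5`, `n = 10`, `d = 5` -/
theorem spec_step {r : Fin n} (h : Ctx A k 5 r) (hk : k = 5) (hn : n = 10) (hO : 46 ≤ O A) :
    ∃ e, e ≠ r ∧ Un A k r = {e} ∧ (∀ j, A r j = false → A e j = true) ∧ ∑ j, aa A e j = 5 := by
  have hk' : (k : ℤ) = 5 := by exact_mod_cast hk
  have hn' : (n : ℤ) = 10 := by exact_mod_cast hn
  obtain ⟨c, hA⟩ := exists_one' (A := A) (r := r) (by rw [h.rr]; norm_num)
  obtain ⟨R, C, hr, hc, hI⟩ := h.sf r c hA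
  have b2 := B2 h
  have n1 := N1d h hI hr hc hA
  rw [hk', hn'] at b2 n1
  have hv0 : (0 : ℤ) ≤ (Un A k r).card := by positivity
  have hv : ((Un A k r).card : ℤ) = 1 := by omega
  have hv' : (Un A k r).card = 1 := by exact_mod_cast hv
  obtain ⟨e, he⟩ := Finset.card_eq_one.1 hv'
  have b1 := B1S h
  rw [hv, hk', hn', he] at b1
  have hg : S A {e} (Z A r) = ∑ j ∈ Z A r, aa A e j := by simp [S]
  rw [hg] at b1
  have hz := h.card_Z
  rw [hn'] at hz
  have hle := rowsum_le_card (A := A) e (Z A r)
  have hge : 5 ≤ ∑ j ∈ Z A r, aa A e j := by omega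
  have heq : ∑ j ∈ Z A r, aa A e j = 5 := by omega
  refine ⟨e, ?_, he, ?_, ?_⟩
  · have h3 : e ∈ Un A k r := by rw [he]; exact Finset.mem_singleton_self e
    simp only [Un, Finset.mem_filter, Finset.mem_univ, true_and] at h3
    exact h3.1
  · intro j hj
    by_contra hne
    have hjZ : j ∈ Z A r := mem_Z.2 hj
    have g1 := Finset.add_sum_erase (Z A r) (fun j => aa A e j) hjZ
    have g2 := rowsum_le_card (A := A) e ((Z A r).erase j)
    have g3 := card_erase_int (k := 5) hjZ (by rw [hz]; norm_num)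
    have g4 := aa_eq_zero (A := A) (i := e) (j := j) (by simpa using hne)
    push_cast at g3
    omega
  · have g1 := rowsum_mono (A := A) e (Finset.subset_univ (Z A r))
    have g2 := h.rowle e
    omega

theorem spec5 {r : Fin n} (h : Ctx A k 5 r) (hk : k = 5) (hn : n = 10) : O A ≤ 45 := by
  classical
  by_contra hcon
  have hO : 46 ≤ O A := by omega
  have hk' : (k : ℤ) = 5 := by exact_mod_cast hk
  have hn' : (n : ℤ) = 10 := by exact_mod_cast hn
  obtain ⟨e, her, hUr, hZW, hfe⟩ := spec_step h hk hn hO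
  have he' := h.chg hfe
  obtain ⟨e', he'e, hUe, hZW', hfe'⟩ := spec_step he' hk hn hO
  have hre : ¬ Rl A k r e := by
    have h3 : e ∈ Un A k r := by rw [hUr]; exact Finset.mem_singleton_self e
    simp only [Un, Finset.mem_filter, Finset.mem_univ, true_and] at h3
    exact h3.2
  have hUe' : e' = r := by
    have h3 : r ∈ Un A k e := by
      simp only [Un, Finset.mem_filter, Finset.mem_univ, true_and]
      exact ⟨fun h => her h.symm, fun h => hre (Rl_symm h)⟩
    rw [hUe, Finset.mem_singleton] at h3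
    exact h3.symm
  -- `Z e = W r`
  have hZe : Z A e = W A r := by
    ext j
    rw [mem_Z, mem_W]
    constructor
    · intro hj
      by_contra hne
      have h1 := hZW j (by simpa using hne)
      rw [hj] at h1
      exact absurd h1 (by decide)
    · intro hj
      by_contra hne
      -- both `e` and `r` have a one at `j`: `e` has 6 ones
      have g1 : ∑ j, aa A e j = ∑ j ∈ W A r, aa A e j + ∑ j ∈ Z A r, aa A e j := by
        rw [← WZ_union (A := A) r, Finset.sum_union (WZ_disj r)]
      have g2 : ∑ j ∈ Z A r, aa A e j = (Z A r).card := by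
        rw [Finset.sum_congr rfl (fun j hj => aa_eq_one (hZW j (mem_Z.1 hj)))]; simp
      have g3 : aa A e j ≤ ∑ j ∈ W A r, aa A e j := by
        apply Finset.single_le_sum (f := fun j => aa A e j) (fun j _ => aa_nonneg e j) (mem_W.2 hj)
      have g4 := aa_eq_one (A := A) (i := e) (j := j) (by simpa using hne)
      have g5 := h.card_Z
      omega
  have hrow : ∀ f : Fin n, f ≠ r → f ≠ e → ∑ j, aa A f j ≤ 4 := by
    intro f hfr hfe2
    have k1 : Rl A k r f := by
      by_contra hne
      have h3 : f ∈ Un A k r := by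
        simp only [Un, Finset.mem_filter, Finset.mem_univ, true_and]
        exact ⟨hfr, hne⟩
      rw [hUr, Finset.mem_singleton] at h3
      exact hfe2 h3
    have k2 : Rl A k e f := by
      by_contra hne
      have h3 : f ∈ Un A k e := by
        simp only [Un, Finset.mem_filter, Finset.mem_univ, true_and]
        exact ⟨hfe2, hne⟩
      rw [hUe, Finset.mem_singleton, hUe'] at h3
      exact hfr h3
    have l1 := related_le h k1
    have l2 := related_le he' k2
    rw [hZe] at l2
    have g1 : ∑ j, aa A f j = ∑ j ∈ W A r, aa A f j + ∑ j ∈ Z A r, aa A f j := by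
      rw [← WZ_union (A := A) r, Finset.sum_union (WZ_disj r)]
    omega
  have htot : O A ≤ ∑ f : Fin n, (if f = r ∨ f = e then (5 : ℤ) else 4) := by
    unfold O S
    apply Finset.sum_le_sum
    intro f _
    split_ifs with hf
    · exact h.rowle f
    · push Not at hf
      exact hrow f hf.1 hf.2
  have h2 : ∑ f : Fin n, (if f = r ∨ f = e then (5 : ℤ) else 4) ≤ 42 := by
    have : ∑ f : Fin n, (if f = r ∨ f = e then (5 : ℤ) else 4) =
        ∑ f : Fin n, (4 + (if f = r ∨ f = e then (1 : ℤ) else 0)) := by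
      apply Finset.sum_congr rfl
      intro f _
      split_ifs <;> norm_num
    rw [this, Finset.sum_add_distrib]
    have h3 : ∑ f : Fin n, (if f = r ∨ f = e then (1 : ℤ) else 0) =
        ((univ.filter (fun f : Fin n => f = r ∨ f = e)).card : ℤ) := by
      rw [Finset.card_filter]; push_cast; rfl
    have h4 : (univ.filter (fun f : Fin n => f = r ∨ f = e)).card ≤ 2 := by
      have : univ.filter (fun f : Fin n => f = r ∨ f = e) ⊆ {r, e} := by
        intro f hf; simpa using hf
      exact (Finset.card_le_card this).trans Finset.card_le_two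
    rw [h3]
    simp only [Finset.sum_const, Finset.card_univ, Fintype.card_fin, nsmul_eq_mul, hn']
    have h4' : ((univ.filter (fun f : Fin n => f = r ∨ f = e)).card : ℤ) ≤ 2 := by exact_mod_cast h4
    linarith
  omega

/-- the arithmetic of the case analysis -/
theorem arith {K x t v D : ℤ} (hK : 2 ≤ K) (hx : 0 ≤ x) (ht : 0 ≤ t) (hv : 0 ≤ v)
    (triv : D ≤ (K - 2) * x - (K + x) * t)
    (b2 : D ≤ (K - 2) * t - v * (t + 1))
    (b1 : D ≤ (K - 2) * t - t * (x + 1 - t) + v * (K - 2))
    (b3 : D ≤ x * (x - 1 - 2 * t))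
    (n1 : D ≤ -t + v * (x - 2 * t))
    (s4 : x = 4 → t = 1 → D ≤ 0) (s5 : K = 5 → x = 5 → t = 1 → D ≤ 0)
    (hcase : K ≤ 5 ∨ x ≤ 4 ∨ K ^ 2 ≤ 2 * (K + x)) : D ≤ 0 := by
  by_contra hD
  have hD1 : 1 ≤ D := by omega
  have ht1 : 1 ≤ t := by
    by_contra h
    have : t = 0 := by omega
    subst this
    nlinarith
  have hv1 : 1 ≤ v := by
    by_contra h
    have : v = 0 := by omega
    subst this
    nlinarith
  have htK : t ≤ K - 3 := by
    by_contra h
    have : K - 2 ≤ t := by omega
    nlinarith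
  have hx2 : 2 * t + 2 ≤ x := by
    by_contra h
    have h1 : x - 1 - 2 * t ≤ 0 := by omega
    nlinarith
  have big : ¬ (K ^ 2 ≤ 2 * (K + x)) := by
    intro hbig
    have c1 : (K - 1 + t) * D ≤ (K - 2) * t * (K - 1 + t) - t * (x + 1 - t) * (t + 1) := by
      have m1 := mul_le_mul_of_nonneg_left b2 (show (0 : ℤ) ≤ K - 2 by omega)
      have m2 := mul_le_mul_of_nonneg_left b1 (show (0 : ℤ) ≤ t + 1 by omega)
      nlinarith
    have c2 : 0 < t * ((K - 2) * (K - 1 + t) - (x + 1 - t) * (t + 1)) := by
      have : 0 < (K - 1 + t) * D := by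
        apply mul_pos <;> omega
      nlinarith
    have c3 : 0 < (K - 2) * (K - 1 + t) - (x + 1 - t) * (t + 1) := by
      by_contra h
      push Not at h
      have := mul_nonpos_of_nonneg_of_nonpos ht h
      omega
    have c4 : (K + x) * (t + 1) < (K - 1 + t) ^ 2 := by nlinarith
    have c5 : K ^ 2 * (t + 1) < 2 * (K - 1 + t) ^ 2 := by nlinarith
    obtain ⟨s, rfl⟩ : ∃ s, t = s + 1 := ⟨t - 1, by ring⟩
    have c6 : K ^ 2 * s < 4 * K * s + 2 * s ^ 2 := by nlinarith
    have hs0 : 0 ≤ s := by omega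
    have c7 : 0 < s * (4 * K + 2 * s - K ^ 2) := by nlinarith
    have c8 : 0 < 4 * K + 2 * s - K ^ 2 := by
      by_contra h
      push Not at h
      have := mul_nonpos_of_nonneg_of_nonpos hs0 h
      omega
    nlinarith
  rcases hcase with h | h | h
  · have hK4 : K = 4 ∨ K = 5 := by omega
    rcases hK4 with rfl | rfl
    · have : t = 1 := by omega
      subst this
      apply big
      omega
    · have ht2 : t = 1 ∨ t = 2 := by omega
      rcases ht2 with rfl | rfl
      · have : v = 1 := by omega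
        subst this
        have hx' : x = 4 ∨ x = 5 := by omega
        rcases hx' with rfl | rfl
        · exact hD (s4 rfl rfl)
        · exact hD (s5 rfl rfl rfl)
      · apply big
        omega
  · have h1 : x = 4 := by omega
    have h2 : t = 1 := by omega
    exact hD (s4 h1 h2)
  · exact big h

/-- conjectured value -/
def conj (n k : ℕ) : ℤ := (n : ℤ) ^ 2 - (2 * k - 3) * n + k ^ 2 - 2 * k

theorem ctx_main {d : ℤ} {r : Fin n} (h : Ctx A k d r) (hk : 2 ≤ k) (hkn : k ≤ n) :
    ((n : ℤ) + k - 2) * (O A - conj n k) ≤ (k - 2) ^ 2 * (n - k) ∧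
    ((k ≤ 5 ∨ n ≤ k + 4 ∨ k ^ 2 ≤ 2 * n) → O A ≤ conj n k) := by
  have hkz : (2 : ℤ) ≤ k := by exact_mod_cast hk
  have hknz : (k : ℤ) ≤ n := by exact_mod_cast hkn
  have hd0 : 0 ≤ d := by rw [← h.rr]; exact rowsum_nonneg r univ
  obtain ⟨x, hx⟩ : ∃ x : ℤ, x = n - k := ⟨_, rfl⟩
  obtain ⟨t, ht⟩ : ∃ t : ℤ, t = x + 1 - d := ⟨_, rfl⟩
  obtain ⟨D, hD⟩ : ∃ D : ℤ, D = O A - conj n k := ⟨_, rfl⟩
  have hn : (n : ℤ) = k + x := by omega
  have hx0 : 0 ≤ x := by omega
  have hd : d = x + 1 - t := by omega
  have hconj : conj n k = k + 3 * x + x ^ 2 := by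
    unfold conj; rw [hn]; ring
  have hO : O A = D + (k + 3 * x + x ^ 2) := by rw [hD, hconj]; ring
  have tr := trivial_bound h
  have b2 := B2 h
  have b1 := B1z h
  obtain ⟨v, hv⟩ : ∃ v : ℤ, v = ((Un A k r).card : ℤ) := ⟨_, rfl⟩
  have hv0 : 0 ≤ v := by rw [hv]; exact Int.natCast_nonneg _
  rw [← hv] at b2 b1
  rw [hO, hn, hd] at tr b2 b1
  have tr' : D ≤ (k - 2) * x - (k + x) * t := by nlinarith
  have b2' : D ≤ (k - 2) * t - v * (t + 1) := by nlinarith
  have b1' : D ≤ (k - 2) * t - t * (x + 1 - t) + v * (k - 2) := by nlinarith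
  by_cases hd1 : 1 ≤ d
  · obtain ⟨c, hA⟩ := exists_one' (A := A) (r := r) (by rw [h.rr]; exact hd1)
    obtain ⟨R, C, hr, hc, hI⟩ := h.sf r c hA
    have ht0 : 0 ≤ t := by
      have h1 := card_T h hI hr hc hA
      have h2 : (0 : ℤ) ≤ ((Z A r \ C).card : ℤ) := Int.natCast_nonneg _
      omega
    have b3 := B3 h hI
    have n1 := N1d h hI hr hc hA
    rw [← hv] at n1
    rw [hO, hn, hd] at b3 n1
    have b3' : D ≤ x * (x - 1 - 2 * t) := by nlinarith
    have n1' : D ≤ -t + v * (x - 2 * t) := by nlinarith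
    rw [← hD]
    constructor
    · have m1 : D ≤ (k - 2) * t := by
        have : 0 ≤ v * (t + 1) := by positivity
        omega
      have m2 := mul_le_mul_of_nonneg_left m1 (show (0 : ℤ) ≤ n by positivity)
      have m3 := mul_le_mul_of_nonneg_left tr' (show (0 : ℤ) ≤ k - 2 by omega)
      rw [hn] at m2 ⊢
      nlinarith
    · intro hcase
      have hDle : D ≤ 0 := by
        apply arith hkz hx0 ht0 hv0 tr' b2' b1' b3' n1'
        · intro h4 h1
          have hd4 : d = 4 := by omega
          subst hd4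
          have hnk : n = k + 4 := by omega
          have := no_tight4 h hnk
          rw [hO, hn, h4] at this
          linarith
        · intro hk5 hx5 h1
          have hd5 : d = 5 := by omega
          subst hd5
          have hk5' : k = 5 := by exact_mod_cast hk5
          have hn10 : n = 10 := by omega
          have := spec5 h hk5' hn10
          rw [hO, hk5, hx5] at this
          linarith
        · rcases hcase with h1 | h1 | h1
          · left; exact_mod_cast h1
          · right; left; omega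
          · right; right
            have : ((k ^ 2 : ℕ) : ℤ) ≤ ((2 * n : ℕ) : ℤ) := by exact_mod_cast h1
            push_cast at this
            rw [← hn]
            exact this
      omega
  · have hd0' : d = 0 := by omega
    have hO0 : O A ≤ 0 := by
      have := trivial_bound h
      rw [hd0'] at this
      simpa using this
    have hc0 : 0 ≤ conj n k := by rw [hconj]; positivity
    constructor
    · have h1 : ((n : ℤ) + k - 2) * (O A - conj n k) ≤ 0 := by
        apply mul_nonpos_of_nonneg_of_nonpos <;> omega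
      have h2 : (0 : ℤ) ≤ (k - 2) ^ 2 * (n - k) := by
        apply mul_nonneg (by positivity); omega
      linarith
    · intro _; omega

/-- upper bounds for all matrices -/
theorem upper (hk : 2 ≤ k) (hkn : k ≤ n) (hA : SF A k) :
    ((n : ℤ) + k - 2) * (O A - conj n k) ≤ (k - 2) ^ 2 * (n - k) ∧
    ((k ≤ 5 ∨ n ≤ k + 4 ∨ k ^ 2 ≤ 2 * n) → O A ≤ conj n k) := by
  have hne : (univ : Finset (Fin n)).Nonempty := ⟨⟨0, by omega⟩, Finset.mem_univ _⟩
  obtain ⟨r, _, hr⟩ := Finset.exists_max_image univ (fun i => ∑ j, aa A i j) hne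
  obtain ⟨c, _, hc⟩ := Finset.exists_max_image univ (fun j => ∑ i, aa A i j) hne
  rcases le_total (∑ i, aa A i c) (∑ j, aa A r j) with hle | hle
  · have hctx : Ctx A k (∑ j, aa A r j) r :=
      ⟨hA, fun i => hr i (Finset.mem_univ i), fun j => (hc j (Finset.mem_univ j)).trans hle, rfl⟩
    exact ctx_main hctx hk hkn
  · have hctx : Ctx (fun i j => A j i) k (∑ i, aa A i c) c :=
      ⟨hA.tr, fun j => hc j (Finset.mem_univ j), fun i => (hr i (Finset.mem_univ i)).trans hle, rfl⟩
    have := ctx_main hctx hk hkn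
    have hO : O (fun i j => A j i) = O A := by unfold O; rw [S_tr]
    rw [hO] at this
    exact this

end SIF
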