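import Pool.Agent.H26.SIF.Ctx

/-! Bounds using one `I_k` through a one of a full row; the tight case `n = k + 4`. -/

namespace SIF
open Finset

variable {n k : ℕ} {A : Fin n → Fin n → Bool}

theorem erase_sub_Re {r : Fin n} {R C : Finset (Fin n)} (hI : IK A k R C) (hr : r ∈ R) :
    R.erase r ⊆ Re A k r := by
  intro e he
  rw [Finset.mem_erase] at he
  simp only [Re, Finset.mem_filter, Finset.mem_univ, true_and]
  exact ⟨he.1, R, C, hI, hr, he.2⟩

theorem card_erase_int {R : Finset (Fin n)} {r : Fin n} (hr : r ∈ R) (hR : (R.card : ℤ) = k) :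
    ((R.erase r).card : ℤ) = k - 1 := by
  have h1 := Finset.card_erase_add_one hr
  omega

theorem K_sub_Z {r c : Fin n} {R C : Finset (Fin n)} (hI : IK A k R C) (hr : r ∈ R) (hc : c ∈ C)
    (hA : A r c = true) : C.erase c ⊆ Z A r := by
  intro j hj
  rw [Finset.mem_erase] at hj
  exact mem_Z.2 (hI.row_zero hr hc hA hj.2 hj.1)

theorem CZ_eq {r c : Fin n} {R C : Finset (Fin n)} (hI : IK A k R C) (hr : r ∈ R) (hc : c ∈ C)
    (hA : A r c = true) : Z A r ∩ C = C.erase c := by
  ext j
  rw [Finset.mem_inter, Finset.mem_erase]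
  constructor
  · rintro ⟨h1, h2⟩
    refine ⟨?_, h2⟩
    rintro rfl
    rw [mem_Z, hA] at h1
    exact absurd h1 (by decide)
  · rintro ⟨h1, h2⟩
    exact ⟨K_sub_Z hI hr hc hA (Finset.mem_erase.2 ⟨h1, h2⟩), h2⟩

theorem S_Z_split {r c : Fin n} {R C : Finset (Fin n)} (hI : IK A k R C) (hr : r ∈ R) (hc : c ∈ C)
    (hA : A r c = true) (X : Finset (Fin n)) :
    S A X (Z A r) = S A X (C.erase c) + S A X (Z A r \ C) := by
  classical
  rw [← CZ_eq hI hr hc hA, ← S_union_right]
  · congr 1
    ext j; simp only [Finset.mem_union, Finset.mem_inter, Finset.mem_sdiff]; tauto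
  · rw [Finset.disjoint_left]; intro j; simp only [Finset.mem_inter, Finset.mem_sdiff]; tauto

theorem card_T {d : ℤ} {r c : Fin n} (h : Ctx A k d r) {R C : Finset (Fin n)} (hI : IK A k R C)
    (hr : r ∈ R) (hc : c ∈ C) (hA : A r c = true) :
    ((Z A r \ C).card : ℤ) = n - d - (k - 1) := by
  classical
  have h1 := Finset.card_sdiff_add_card_inter (Z A r) C
  rw [CZ_eq hI hr hc hA] at h1
  have h2 := card_erase_int hc hI.cC
  have h3 := h.card_Z
  omega

theorem S_Re_split {r : Fin n} {R C : Finset (Fin n)} (hI : IK A k R C) (hr : r ∈ R)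
    (Y : Finset (Fin n)) :
    S A (Re A k r) Y = S A (R.erase r) Y + S A (Re A k r \ R.erase r) Y := by
  classical
  rw [← S_union_left Finset.disjoint_sdiff, Finset.union_sdiff_of_subset (erase_sub_Re hI hr)]

theorem card_Re_sdiff {r : Fin n} {R C : Finset (Fin n)} (hI : IK A k R C) (hr : r ∈ R) :
    ((Re A k r \ R.erase r).card : ℤ) = n - k - (Un A k r).card := by
  have h1 := Finset.card_sdiff_add_card_eq_card (erase_sub_Re hI hr)
  have h2 := card_erase_int hr hI.cR
  have h3 := card_RU (A := A) (k := k) r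
  omega

theorem row_K {r c : Fin n} {R C : Finset (Fin n)} (hI : IK A k R C) (hr : r ∈ R) (hc : c ∈ C)
    (hA : A r c = true) : ∀ e ∈ R.erase r, ∑ j ∈ C.erase c, aa A e j = 1 := by
  intro e he
  rw [Finset.mem_erase] at he
  have h1 := hI.row e he.2
  have h2 := Finset.add_sum_erase C (fun j => aa A e j) hc
  have h3 := aa_eq_zero (hI.col_zero hr hc hA he.2 he.1)
  omega

theorem S_RK {r c : Fin n} {R C : Finset (Fin n)} (hI : IK A k R C) (hr : r ∈ R) (hc : c ∈ C)
    (hA : A r c = true) : S A (R.erase r) (C.erase c) = k - 1 := by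
  rw [S_eq_rows (row_K hI hr hc hA), card_erase_int hr hI.cR]; ring

theorem N1 {d : ℤ} {r c : Fin n} (h : Ctx A k d r) {R C : Finset (Fin n)} (hI : IK A k R C)
    (hr : r ∈ R) (hc : c ∈ C) (hA : A r c = true) :
    O A ≤ S A univ (W A r) + S A univ (Z A r \ C) + (k - 1) +
      (n - k - (Un A k r).card) * (n - d - k + 2) + S A (Un A k r) (C.erase c) := by
  have e1 : O A = S A univ (W A r) + S A univ (Z A r) := S_WZ r univ
  have e2 := S_Z_split hI hr hc hA univ
  have e3 := O_split (A := A) (k := k) r (C.erase c)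
  have e4 := S_r_Z (A := A) (K_sub_Z hI hr hc hA)
  have e5 := S_Re_split hI hr (C.erase c)
  have e6 := S_RK hI hr hc hA
  have e7 := S_ReZ h (X := Re A k r \ R.erase r) Finset.sdiff_subset
  rw [card_Re_sdiff hI hr] at e7
  have e8 : S A (Re A k r \ R.erase r) (C.erase c) ≤ S A (Re A k r \ R.erase r) (Z A r) :=
    S_mono (Finset.Subset.refl _) (K_sub_Z hI hr hc hA)
  linarith

theorem N1d {d : ℤ} {r c : Fin n} (h : Ctx A k d r) {R C : Finset (Fin n)} (hI : IK A k R C)
    (hr : r ∈ R) (hc : c ∈ C) (hA : A r c = true) :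
    O A ≤ d * d + (n - d - (k - 1)) * d + (k - 1) +
      (n - k - (Un A k r).card) * (n - d - k + 2) + (Un A k r).card * d := by
  have e1 := N1 h hI hr hc hA
  have e2 := S_le_all' h univ (W A r)
  rw [h.card_W] at e2
  have e3 := S_le_all' h univ (Z A r \ C)
  rw [card_T h hI hr hc hA] at e3
  have e4 := S_le_all h (Un A k r) (C.erase c)
  linarith

theorem N2 {d : ℤ} {r c : Fin n} (h : Ctx A k d r) {R C : Finset (Fin n)} (hI : IK A k R C)
    (hr : r ∈ R) (hc : c ∈ C) (hA : A r c = true) :
    O A ≤ d + d * (n - k - (Un A k r).card) + (k - 1) + (n - d - (k - 1)) * d +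
      (n - k - (Un A k r).card) * (n - d - k + 2) + (Un A k r).card * d := by
  have e1 : O A = S A {r} univ + S A (Re A k r) univ + S A (Un A k r) univ := O_split r univ
  have e2 := S_WZ (A := A) r (Re A k r)
  have e3 := S_r_univ h
  have e4 := S_Re_W h
  have e5 := S_Re_split hI hr (Z A r)
  have e6 := S_Z_split hI hr hc hA (R.erase r)
  have e7 := S_RK hI hr hc hA
  have e8 := S_le_all' h (R.erase r) (Z A r \ C)
  rw [card_T h hI hr hc hA] at e8
  have e9 := S_ReZ h (X := Re A k r \ R.erase r) Finset.sdiff_subset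
  rw [card_Re_sdiff hI hr] at e9
  have e10 := S_le_all h (Un A k r) univ
  have e11 := card_RU (A := A) (k := k) r
  have e12 : ((Re A k r).card : ℤ) = n - 1 - (Un A k r).card := by linarith
  rw [e12] at e4
  linarith

/-- the tight situation `n = k + 4`, `d = 4`, one more one than conjectured:
consequences for one full row -/
theorem tight4 {r c : Fin n} (h : Ctx A k 4 r) (hn : n = k + 4) (hO : (n : ℤ) + 25 ≤ O A)
    {R C : Finset (Fin n)} (hI : IK A k R C) (hr : r ∈ R) (hc : c ∈ C) (hA : A r c = true) :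
    (∀ j ∈ W A r, ∑ i, aa A i j = 4) ∧ (∀ j ∈ Z A r \ C, ∑ i, aa A i j = 4) ∧
    ∃ e, Un A k r = {e} ∧ ∑ j ∈ C.erase c, aa A e j = 4 := by
  have hnk : (n : ℤ) = k + 4 := by exact_mod_cast hn
  have e1 := N1 h hI hr hc hA
  have e2 := S_le_all' h univ (W A r)
  rw [h.card_W] at e2
  have e3 := S_le_all' h univ (Z A r \ C)
  rw [card_T h hI hr hc hA] at e3
  have e4 := S_le_all h (Un A k r) (C.erase c)
  have e5 := N2 h hI hr hc hA
  have hv0 : (0 : ℤ) ≤ (Un A k r).card := by positivity
  have hv : ((Un A k r).card : ℤ) = 1 := by nlinarith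
  rw [hv] at e1 e4
  have f1 : S A univ (W A r) = 16 := by nlinarith
  have f2 : S A univ (Z A r \ C) = 4 := by nlinarith
  have f3 : S A (Un A k r) (C.erase c) = 4 := by nlinarith
  have hv' : (Un A k r).card = 1 := by exact_mod_cast hv
  obtain ⟨e, he⟩ := Finset.card_eq_one.1 hv'
  refine ⟨?_, ?_, e, he, ?_⟩
  · apply S_tight_cols (X := univ)
    · intro j _; exact h.colle j
    · rw [h.card_W, f1]; norm_num
  · apply S_tight_cols (X := univ)
    · intro j _; exact h.colle j
    · rw [card_T h hI hr hc hA, f2]; linarith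
  · rw [he] at f3
    simpa [S] using f3

theorem Ctx.tr {d : ℤ} {r r' : Fin n} (h : Ctx A k d r) (hr : ∑ i, aa A i r' = d) :
    Ctx (fun i j => A j i) k d r' :=
  ⟨h.sf.tr, h.colle, h.rowle, hr⟩

theorem Ctx.chg {d : ℤ} {r r' : Fin n} (h : Ctx A k d r) (hr : ∑ j, aa A r' j = d) :
    Ctx A k d r' :=
  ⟨h.sf, h.rowle, h.colle, hr⟩

theorem exists_one {r : Fin n} (h : ∑ j, aa A r j = 4) : ∃ c, A r c = true := by
  by_contra hc
  push Not at hc
  have : ∑ j, aa A r j = 0 := by
    apply Finset.sum_eq_zero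
    intro j _
    exact aa_eq_zero (by simpa using hc j)
  omega

/-- columns of full rows are full -/
theorem full_col {r : Fin n} (h : Ctx A k 4 r) (hn : n = k + 4) (hO : (n : ℤ) + 25 ≤ O A)
    {c : Fin n} (hA : A r c = true) : ∑ i, aa A i c = 4 := by
  obtain ⟨R, C, hr, hc, hI⟩ := h.sf r c hA
  exact (tight4 h hn hO hI hr hc hA).1 c (mem_W.2 hA)

/-- rows of full columns are full -/
theorem full_row {r : Fin n} (h : Ctx A k 4 r) (hn : n = k + 4) (hO : (n : ℤ) + 25 ≤ O A)
    {i c : Fin n} (hfc : ∑ i, aa A i c = 4) (hA : A i c = true) : ∑ j, aa A i j = 4 := by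
  have h' := h.tr hfc
  have hO' : (n : ℤ) + 25 ≤ O (fun i j => A j i) := by
    unfold O; rw [S_tr]; exact hO
  exact full_col h' hn hO' (c := i) hA

/-- the case `n = k + 4` -/
theorem no_tight4 {r : Fin n} (h : Ctx A k 4 r) (hn : n = k + 4) : O A ≤ (n : ℤ) + 24 := by
  classical
  by_contra hcon
  push Not at hcon
  have hO : (n : ℤ) + 25 ≤ O A := by linarith
  obtain ⟨c, hA⟩ := exists_one h.rr
  obtain ⟨R, C, hr, hc, hI⟩ := h.sf r c hA
  obtain ⟨t1, t2, e, he, t3⟩ := tight4 h hn hO hI hr hc hA
  -- `e` is full and zero at `c`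
  have hefull : ∑ j, aa A e j = 4 := by
    have h1 := rowsum_mono (A := A) e (Finset.subset_univ (C.erase c))
    have h2 := h.rowle e
    omega
  have hec : A e c = false := by
    by_contra hne
    have hne' : A e c = true := by simpa using hne
    have h1 := Finset.add_sum_erase (univ : Finset (Fin n)) (fun j => aa A e j) (Finset.mem_univ c)
    rw [aa_eq_one hne'] at h1
    have h2 : ∑ j ∈ C.erase c, aa A e j ≤ ∑ j ∈ univ.erase c, aa A e j :=
      rowsum_mono e (Finset.erase_subset_erase c (Finset.subset_univ C))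
    omega
  -- column `c`: ones at `r` and at rows outside `R`
  have hcfull : ∑ i, aa A i c = 4 := t1 c (mem_W.2 hA)
  -- every non-full row has exactly one one
  have key : ∀ f : Fin n, ∑ j, aa A f j ≠ 4 → ∑ j, aa A f j = 1 := by
    intro f hf
    have hfr : f ≠ r := by rintro rfl; exact hf h.rr
    have hfe : f ≠ e := by rintro rfl; exact hf hefull
    have hfc : A f c = false := by
      by_contra hne
      exact hf (full_row h hn hO hcfull (by simpa using hne))
    have hfR : f ∈ R := by
      by_contra hfR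
      -- the rows outside `R`, apart from `e` and `f`, are two
      have h1 : ∑ i, aa A i c = ∑ i ∈ R, aa A i c + ∑ i ∈ Rᶜ, aa A i c := by
        rw [Finset.sum_add_sum_compl]
      have h2 := hI.col c hc
      have heR : e ∉ R := by
        intro heR
        have h3 : e ∈ Un A k r := by rw [he]; exact Finset.mem_singleton_self e
        simp only [Un, Finset.mem_filter, Finset.mem_univ, true_and] at h3
        exact h3.2 ⟨R, C, hI, hr, heR⟩
      have h4 : ∑ i ∈ Rᶜ, aa A i c ≤ ((Rᶜ \ {e, f}).card : ℤ) := by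
        have h5 : ∑ i ∈ Rᶜ, aa A i c = ∑ i ∈ Rᶜ \ {e, f}, aa A i c := by
          symm
          apply Finset.sum_subset Finset.sdiff_subset
          intro i hi hi'
          simp only [Finset.mem_sdiff, Finset.mem_insert, Finset.mem_singleton, not_and,
            not_not] at hi'
          rcases hi' hi with rfl | rfl
          · exact aa_eq_zero hec
          · exact aa_eq_zero hfc
        rw [h5]
        exact rowsum_le_card (A := fun i j => A j i) c _
      have h6 : ((Rᶜ).card : ℤ) = 4 := by
        have g1 := Finset.card_add_card_compl R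
        rw [Fintype.card_fin] at g1
        have g2 := hI.cR
        omega
      have h7 : ((Rᶜ \ {e, f}).card : ℤ) = 2 := by
        have g1 : ({e, f} : Finset (Fin n)) ⊆ Rᶜ := by
          intro i hi
          simp only [Finset.mem_insert, Finset.mem_singleton] at hi
          rw [Finset.mem_compl]
          rcases hi with rfl | rfl <;> assumption
        have g2 := Finset.card_sdiff_add_card_eq_card g1
        rw [Finset.card_pair (Ne.symm hfe)] at g2
        omega
      omega
    -- no ones in full columns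
    have hz : ∀ j, ∑ i, aa A i j = 4 → A f j = false := by
      intro j hj
      by_contra hne
      exact hf (full_row h hn hO hj (by simpa using hne))
    have hk := row_K hI hr hc hA f (Finset.mem_erase.2 ⟨hfr, hfR⟩)
    rw [← hk]
    symm
    apply Finset.sum_subset (Finset.subset_univ _)
    intro j _ hj
    apply aa_eq_zero
    by_cases hjW : j ∈ W A r
    · exact hz j (t1 j hjW)
    · have hjZ : j ∈ Z A r := by
        have : j ∈ W A r ∪ Z A r := by rw [WZ_union]; exact Finset.mem_univ j
        rcases Finset.mem_union.1 this with h1 | h1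
        · exact absurd h1 hjW
        · exact h1
      by_cases hjC : j ∈ C
      · exfalso
        apply hj
        rw [← CZ_eq hI hr hc hA]
        exact Finset.mem_inter.2 ⟨hjZ, hjC⟩
      · exact hz j (t2 j (Finset.mem_sdiff.2 ⟨hjZ, hjC⟩))
  -- count
  have hcount : O A = n + 3 * ((univ.filter (fun f : Fin n => ∑ j, aa A f j = 4)).card : ℤ) := by
    have h1 : O A = ∑ f : Fin n, (1 + 3 * (if ∑ j, aa A f j = 4 then (1 : ℤ) else 0)) := by
      unfold O S
      apply Finset.sum_congr rfl
      intro f _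
      split_ifs with hf
      · rw [hf]; norm_num
      · rw [key f hf]; norm_num
    rw [h1, Finset.sum_add_distrib, ← Finset.mul_sum, Finset.card_filter]
    simp
  have hup : O A ≤ n + 25 := by
    have e1 := N1 h hI hr hc hA
    have e2 := S_le_all' h univ (W A r)
    rw [h.card_W] at e2
    have e3 := S_le_all' h univ (Z A r \ C)
    rw [card_T h hI hr hc hA] at e3
    have e4 := S_le_all h (Un A k r) (C.erase c)
    rw [he, Finset.card_singleton] at e4
    rw [he, Finset.card_singleton] at e1
    have hnk : (n : ℤ) = k + 4 := by exact_mod_cast hn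
    push_cast at e1 e4
    nlinarith
  omega

end SIF
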